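import Pool.Agent.Helper96.GU.StF

/-!
# Project GF: module INF (the induction)
-/

set_option autoImplicit false

namespace Pool.Agent.Helper80.GF

open Pool.Agent.Helper96.UT hiding StTOP TopV TopE tht Bd VC EC
open Pool.Agent.Helper96.GU

theorem tINF (hG : StGDF) (hR : StREF) (hP : StPSH) (hF : StFOR) : StINF := by
  classical
  intro α r Z η m hr hm hM Ω Θ _ _ o ho v E C hOv hC hH
  have key : ∀ (k : ℕ) (E : Set (Ω × α)) (C : Finset Ω), C.card = k → Ov r Z v E → Cpx Z E C →
      Hh Z E C v ∅ → ∀ q : List (α × Bool), InE E v q → InE (CE Z o) o q →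
      act v (FreeGroup.mk q) = v → FreeGroup.mk q ∈ Ns (Hp r Z) Z := by
    intro k
    induction k with
    | zero =>
      intro E C hk hOv hC hH q hq hqo hcl
      have hC0 : C = ∅ := Finset.card_eq_zero.1 hk
      rw [hC0] at hH
      rw [hF α Z Ω E v hH v q hq hcl]
      exact Subgroup.one_mem _
    | succ k ih =>
      intro E C hk hOv hC hH q hq hqo hcl
      have hne : C.Nonempty := by
        rw [← Finset.card_pos]
        omega
      obtain ⟨u, hu, hFr⟩ := hG α Z η Ω E C v hC hH hne m hm
      obtain ⟨q', h1, h2, h3, h4⟩ :=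
        hP α r Z hr Ω Θ o ho v E C hOv hC u hu m hFr hM q hq hqo
      obtain ⟨hCp, hHh⟩ := hR α Z Ω E C hC u hu m hFr (C.erase u) (by
        intro x
        rw [Finset.mem_erase, and_comm])
      have hcard : (C.erase u).card = k := by
        rw [Finset.card_erase_of_mem hu, hk]
        rfl
      have hOv' : Ov r Z v (E \ {ed (act u (pre Z.c m)) (Z.c m)}) :=
        ⟨hOv.stab, fun p hp => hOv.ru p (InE_mono Set.sdiff_subset hp)⟩
      have h5 := ih _ (C.erase u) hcard hOv' hCp (hHh v hH) q' h1 h2 (h3.trans hcl)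
      have h6 : FreeGroup.mk q = (FreeGroup.mk q * (FreeGroup.mk q')⁻¹) * FreeGroup.mk q' := by
        group
      rw [h6]
      exact Subgroup.mul_mem _ h4 h5
  exact key C.card E C rfl hOv hC hH

end Pool.Agent.Helper80.GF
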